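import Pool.Agent.helper48.OF.Gen
import Pool.Agent.helper31.OF.C1
import Pool.Agent.helper97.OF.C2

/-! # Project OF, module TA: the orders in the support divide `D` -/

namespace Pool.Agent.helper88.OF

open Finset Pool.Agent.helper76.LP

theorem supp_dvd (m : ℕ) [NeZero m] (h2 : Odd m) (u : (ZMod m)ˣ) (hu : IsTw m u)
    (F : ZMod m → ℤ) (hodd : ∀ x, F (-x) = - F x) (hT : TateF F) (hN : Nrm u F) (hN9 : No9 F)
    (D : ℕ) (h15 : 15 ∣ D)
    (h4 : ∑ x, (if addOrderOf x = D then 0 else |F x|) ≤ 4) (x : ZMod m) (hx : F x ≠ 0) :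
    addOrderOf x ∣ D := by
  classical
  by_contra hxD
  -- a point of maximal order
  obtain ⟨y, hy, hmax⟩ := Finset.exists_max_image
    (univ.filter (fun y : ZMod m => F y ≠ 0 ∧ ¬ addOrderOf y ∣ D)) (fun y => addOrderOf y)
    ⟨x, by rw [Finset.mem_filter]; exact ⟨Finset.mem_univ _, hx, hxD⟩⟩
  rw [Finset.mem_filter] at hy
  obtain ⟨-, hy0, hyD⟩ := hy
  obtain ⟨e, he⟩ : ∃ e, e = addOrderOf y := ⟨_, rfl⟩
  have hem : e ∣ m := he ▸ addOrderOf_dvd' y
  have hm0 : 0 < m := Nat.pos_of_ne_zero (NeZero.ne m)
  have he0 : 0 < e := Nat.pos_of_dvd_of_pos hem hm0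
  have : NeZero e := ⟨he0.ne'⟩
  rw [← he] at hyD hmax
  obtain ⟨z, hz⟩ := exists_emb y he.symm
  have heo : Odd e := Odd.of_dvd_nat h2 hem
  set f : (ZMod e)ˣ → ℤ := fun z => F (emb e m (z : ZMod e)) with hf
  have hMD : ∀ L : List ℕ, (∀ p ∈ e.primeFactors, p ∈ L) → MDv (Gam e) L f := by
    intro L hL
    refine mdiff m F hodd hT e hem ?_ L hL
    intro t ht1 ht2
    by_contra ht3
    have h1 : ¬ addOrderOf t ∣ D := fun h => hyD (ht1.trans h)
    have h2 := hmax t (by rw [Finset.mem_filter]; exact ⟨Finset.mem_univ _, ht3, h1⟩)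
    exact ht2 (Nat.le_antisymm h2 (Nat.le_of_dvd (addOrderOf_pos t) ht1))
  have hfodd : ∀ x, f (-x) = - f x := by
    intro x
    show F (emb e m ((-x : (ZMod e)ˣ) : ZMod e)) = - F (emb e m (x : ZMod e))
    rw [Units.val_neg, emb_neg hem, hodd]
  have hsum : ∑ z, |f z| ≤ 4 := by
    refine le_trans ?_ h4
    have h1 : ∑ z : (ZMod e)ˣ, |f z| = ∑ x, (if addOrderOf x = e then |F x| else 0) :=
      (TA_sum_emb e hem (fun x => |F x|)).symm
    rw [h1]
    apply Finset.sum_le_sum
    intro t _
    split_ifs with h2 h3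
    · exact absurd (h2 ▸ h3 ▸ dvd_rfl) hyD
    · exact le_rfl
    · exact le_rfl
    · exact abs_nonneg _
  have hfz : f z ≠ 0 := by
    show F (emb e m (z : ZMod e)) ≠ 0
    rw [hz]; exact hy0
  by_cases h3 : 3 ∣ e
  · have h9 : ¬ 9 ∣ e := fun h => hy0 (hN9 y (he ▸ h))
    have hu1 := hu.2.2 e hem h3 h9
    set v := ZMod.unitsMap hem u with hv
    have hvv : v * v = 1 := by
      rw [hv, ← map_mul, hu.1, map_one]
    have h15' : e ≠ 15 := by
      rintro rfl
      exact hyD h15
    have hP := small_P e heo h3 h9 h15' v hu1.1 hu1.2 (fun x => f x - f (v * x)) (by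
        intro x
        show f (-x) - f (v * -x) = - (f x - f (v * x))
        rw [mul_neg, hfodd, hfodd]; ring) (by
        intro x
        show f (v * x) - f (v * (v * x)) = - (f x - f (v * x))
        rw [← mul_assoc, hvv, one_mul]; ring) (by
        intro L hL1 hL2
        have h1 := hMD (3 :: L) (by
          intro p hp
          rw [List.mem_cons]
          by_cases hp3 : p = 3
          · exact Or.inl hp3
          · right
            have hpp := Nat.prime_of_mem_primeFactors hp
            have hpe := Nat.dvd_of_mem_primeFactors hp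
            have h5 : p ∈ (e / 3).primeFactors := by
              rw [Nat.mem_primeFactors]
              obtain ⟨k, hk⟩ := h3
              have hk2 : e / 3 = k := by rw [hk, Nat.mul_div_cancel_left _ (by norm_num)]
              rw [hk2]
              refine ⟨hpp, ?_, ?_⟩
              · have hc : Nat.Coprime p 3 := (Nat.coprime_primes hpp Nat.prime_three).2 hp3
                apply hc.dvd_of_dvd_mul_left
                rw [← hk]; exact hpe
              · rintro rfl; omega
            rw [← hL2] at h5
            exact List.mem_toFinset.1 h5)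
        have h6 := KL_neg (Gam e) L _ (h1 v hu1.1)
        have h7 : (fun x => f x - f (v * x)) = fun x => - (f (v * x) - f x) := by
          funext x; ring
        rw [h7]
        exact h6) (by
        have h1 : ∑ x, |f x - f (v * x)| ≤ ∑ x, (|f x| + |f (v * x)|) :=
          Finset.sum_le_sum fun x _ => abs_sub _ _
        have h2 : ∑ x, |f (v * x)| = ∑ x, |f x| :=
          Equiv.sum_comp (Equiv.mulLeft v) (fun x => |f x|)
        rw [Finset.sum_add_distrib, h2] at h1
        linarith) z
    have h5 : f z * f (v * z) ≤ 0 := by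
      have h6 := hN y (he ▸ h3)
      rw [← hz, TA_mul_emb hem] at h6
      exact h6
    have h7 : f (v * z) = f z := by
      have h8 : f z - f (v * z) = 0 := hP
      linarith
    rw [h7] at h5
    exact hfz (by nlinarith [mul_self_nonneg (f z)])
  · have h6 : Nat.Coprime e 6 := by
      have h7 : Nat.Coprime e 2 := Nat.coprime_two_right.2 heo
      have h8 : Nat.Coprime e 3 := ((Nat.Prime.coprime_iff_not_dvd Nat.prime_three).2 h3).symm
      exact Nat.Coprime.mul_right h7 h8
    exact hfz (small_zero e h6 f hfodd (fun L _ hL => hMD L (by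
      intro p hp
      rw [← hL] at hp
      exact List.mem_toFinset.1 hp)) (by linarith) z)

end Pool.Agent.helper88.OF
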