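import Pool.Agent.helper48.OF.Gen
import Pool.Agent.helper97.OF.MV

/-! # Project OF, module TB: no other point of order `D / 5` -/

namespace Pool.Agent.helper88.OF

open Finset Pool.Agent.helper76.LP

theorem tie_a (m : ℕ) [NeZero m] (h2 : Odd m) (u : (ZMod m)ˣ) (hu : IsTw m u)
    (F : ZMod m → ℤ) (hodd : ∀ x, F (-x) = - F x) (hT : TateF F)
    (D : ℕ) [NeZero D] (hD : D ∣ m) (h3 : 3 ∣ D) (h9 : ¬ 9 ∣ D) (h5 : 5 ∣ D) (h25 : ¬ 25 ∣ D)
    (h15 : D ≠ 15) (hsupp : ∀ x, F x ≠ 0 → addOrderOf x ∣ D) (x₀ : (ZMod D)ˣ)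
    (hP : ∀ z : (ZMod D)ˣ, F (emb D m (z : ZMod D)) - F ((u : ZMod m) * emb D m (z : ZMod D)) =
      orb (Gam D 5) (ZMod.unitsMap hD u) (z * x₀⁻¹))
    (h0 : ∀ x, addOrderOf x = D / 5 → F x = 0) : False := by
  classical
  obtain ⟨e, H, he, hH, hHe, hH1, hHq, he0, hH0, heH⟩ := TB_levels (p := 5) (by norm_num)
    (Odd.of_dvd_nat h2 hD) h3 h9 h5 h25 h15 (Or.inr rfl)
  norm_num at heH
  have : NeZero e := ⟨he0⟩
  have : NeZero H := ⟨hH0⟩
  have heD : e ∣ D := Dvd.intro 5 he
  have hem : e ∣ m := heD.trans hD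
  have hHm : H ∣ m := hHe.trans hem
  have h3e : 3 ∣ e := ⟨H, by omega⟩
  have h3H : ¬ 3 ∣ H := by
    rintro ⟨k, hk⟩
    exact h9 ⟨5 * k, by omega⟩
  have h5H : ¬ 5 ∣ H := by
    rintro ⟨k, hk⟩
    exact h25 ⟨3 * k, by omega⟩
  have h9e : ¬ 9 ∣ e := fun h => h9 (h.trans heD)
  have hc5e : Nat.Coprime 5 e := by
    rw [Nat.Prime.coprime_iff_not_dvd (by norm_num)]
    rintro ⟨k, hk⟩
    exact h25 ⟨k, by omega⟩
  have hDe5 : D / 5 = e := by omega
  obtain ⟨w, hw⟩ : ∃ w, w = ZMod.unitsMap hD u := ⟨_, rfl⟩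
  obtain ⟨v, hv⟩ : ∃ v, v = ZMod.unitsMap hem u := ⟨_, rfl⟩
  have hww : w * w = 1 := by rw [hw, ← map_mul, hu.1, map_one]
  have hvv : v * v = 1 := by rw [hv, ← map_mul, hu.1, map_one]
  have hwv : ZMod.unitsMap heD w = v := by rw [hw, hv, TB_unitsMap_comp]
  have hv3 : v ∈ Gam e 3 ∧ v ≠ 1 := hv ▸ hu.2.2 e hem h3e h9e
  have hρv : ZMod.unitsMap h3e v = -1 := TB_mod3 h3e h9e v hv3.1 hv3.2
  rw [← hw] at hP
  -- the modification
  obtain ⟨g, ν, h1, -, -, hanti, hTg, -⟩ := move1 m D e 5 hD he (by norm_num)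
    (fun z => orb (Gam D 5) w (z * x₀⁻¹)) (by
      intro t ht x
      show orb (Gam D 5) w (t * x * x₀⁻¹) = orb (Gam D 5) w (x * x₀⁻¹)
      rw [mul_assoc, TB_orb_mul _ _ _ _ ht]) (by
      intro x
      show orb (Gam D 5) w (-x * x₀⁻¹) = - orb (Gam D 5) w (x * x₀⁻¹)
      rw [neg_mul, TB_orb_neg])
  have hRT : TateF (fun x => F x - F ((u : ZMod m) * x) - anti g x) :=
    TB_tateF_sub (TB_tateF_sub hT (TB_tateF_mul u hT)) hTg
  have hRodd : ∀ x, F (-x) - F ((u : ZMod m) * -x) - anti g (-x) =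
      - (F x - F ((u : ZMod m) * x) - anti g x) := by
    intro x
    rw [mul_neg, hodd, hodd, anti_odd]; ring
  have hMD : ∀ L : List ℕ, (∀ q ∈ e.primeFactors, q ∈ L) → MDv (Gam e) L
      (fun z => F (emb e m (z : ZMod e)) - F ((u : ZMod m) * emb e m (z : ZMod e)) -
        anti g (emb e m (z : ZMod e))) := by
    intro L hL
    refine mdiff m _ hRodd hRT e hem ?_ L hL
    intro x hx1 hx2
    show F x - F ((u : ZMod m) * x) - anti g x = 0
    by_cases hxD : addOrderOf x = D
    · obtain ⟨z, rfl⟩ := exists_emb x hxD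
      rw [hanti, ext_emb hD, ext_of_order_ne hem _ _ (by rw [hxD]; intro h; omega), hP]
      ring
    · have hxD' : ¬ addOrderOf x ∣ D := by
        rintro ⟨k, hk⟩
        obtain ⟨l, hl⟩ := hx1
        have hkl : l * k = 5 := by
          have h6 : e * (l * k) = e * 5 := by rw [he, hk, hl]; ring
          exact Nat.eq_of_mul_eq_mul_left (Nat.pos_of_ne_zero he0) h6
        have hl5 : l ∣ 5 := ⟨k, hkl.symm⟩
        rcases (Nat.dvd_prime (by norm_num)).1 hl5 with rfl | rfl
        · exact hx2 (by rw [hl, mul_one])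
        · exact hxD (by rw [hl, he])
      have hF1 : F x = 0 := by
        by_contra h
        exact hxD' (hsupp x h)
      have hF2 : F ((u : ZMod m) * x) = 0 := by
        by_contra h
        have := hsupp _ h
        rw [TB_order] at this
        exact hxD' this
      rw [hF1, hF2, hanti, ext_of_order_ne hD _ _ hxD, ext_of_order_ne hem _ _ hx2]
      ring
  have hRe : (fun z : (ZMod e)ˣ => F (emb e m (z : ZMod e)) -
      F ((u : ZMod m) * emb e m (z : ZMod e)) - anti g (emb e m (z : ZMod e))) =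
      fun z => Rop 5 e ν z := by
    funext z
    have ho := addOrderOf_emb hem z
    rw [h0 _ (by rw [ho, hDe5]), h0 _ (by rw [TB_order, ho, hDe5]), hanti,
      ext_of_order_ne hD _ _ (by rw [ho]; intro h; omega), ext_emb hem]
    ring
  rw [hRe] at hMD
  -- the values of `ν`
  obtain ⟨z₀, hz₀⟩ : ∃ z₀, z₀ = ZMod.unitsMap heD x₀ := ⟨_, rfl⟩
  have hν : ∀ y : (ZMod e)ˣ, ν y = (if y = z₀ then (1 : ℤ) else 0) -
      (if v * y = z₀ then 1 else 0) - (if - y = z₀ then 1 else 0) +
      (if - (v * y) = z₀ then 1 else 0) := by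
    intro y
    obtain ⟨z, rfl⟩ := ZMod.unitsMap_surjective heD y
    rw [← h1, TB_orb he (by norm_num), hwv, hz₀]
  have hνv : ∀ y, ν (v * y) = - ν y := by
    intro y
    rw [hν, hν, ← mul_assoc, hvv, one_mul]
    ring
  have hc5 : ∀ y, Rop 5 e ν y = ν y - ν (ZMod.unitOfCoprime 5 hc5e * y) := by
    intro y
    unfold Rop
    rw [dif_pos hc5e]
  obtain ⟨L, hL⟩ : ∃ L : List ℕ, L = H.primeFactors.toList := ⟨_, rfl⟩
  have hLm : ∀ q, q ∈ L ↔ q ∈ H.primeFactors := by
    intro q; rw [hL, Finset.mem_toList]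
  have hMDL : MDv (Gam e) L (fun z => Rop 5 e ν z) := by
    have h6 := hMD (3 :: L) (by
      intro q hq
      rw [List.mem_cons, hLm]
      rw [heH, Nat.primeFactors_mul hH0 (by norm_num), Finset.mem_union,
        Nat.Prime.primeFactors Nat.prime_three, Finset.mem_singleton] at hq
      exact hq.symm)
    have h7 := h6 v hv3.1
    apply TB_mdv_smul (Gam e) (-2) (by norm_num)
    have h8 : (fun x => Rop 5 e ν (v * x) - Rop 5 e ν x) = fun x => (-2) * Rop 5 e ν x := by
      funext x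
      rw [hc5, hc5, mul_left_comm (ZMod.unitOfCoprime 5 hc5e) v x, hνv, hνv]
      ring
    rw [← h8]
    exact h7
  -- reduction modulo 3 and modulo `H`
  have hρ5 : ZMod.unitsMap h3e (ZMod.unitOfCoprime 5 hc5e) = -1 := by
    rw [TB_unitsMap_coprime]
    apply Units.ext
    rw [ZMod.coe_unitOfCoprime, Units.val_neg, Units.val_one]
    decide
  have hσ5 := TB_ne hH1 hHq 5 (hc5e.coprime_dvd_right hHe) (Or.inr rfl)
  rw [← TB_unitsMap_coprime hHe 5 hc5e] at hσ5
  have hσv : ZMod.unitsMap hHe v = 1 := by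
    rw [hv, TB_unitsMap_comp]
    exact hu.2.1 H hHm h3H
  have h13 : (1 : (ZMod 3)ˣ) ≠ -1 := TB_one_ne le_rfl
  have hval : Rop 5 e ν z₀ = 1 := by
    rw [hc5, hν z₀, hν (ZMod.unitOfCoprime 5 hc5e * z₀)]
    have a1 : ¬ v * z₀ = z₀ := by
      intro h
      rw [mul_eq_right] at h
      rw [h, map_one] at hρv
      exact h13 hρv
    have a2 : ¬ -z₀ = z₀ := by
      intro h
      have := congrArg (ZMod.unitsMap h3e) h
      rw [TA_unitsMap_neg, ← neg_one_mul, mul_eq_right] at this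
      exact h13 this.symm
    have a3 : ¬ -(v * z₀) = z₀ := by
      intro h
      have := congrArg (ZMod.unitsMap hHe) h
      rw [TA_unitsMap_neg, map_mul, hσv, one_mul, ← neg_one_mul, mul_eq_right] at this
      have hH7 : 3 ≤ H := by
        obtain ⟨l, hl⟩ := Odd.of_dvd_nat h2 hHm
        omega
      exact TB_one_ne hH7 this.symm
    have a4 : ¬ ZMod.unitOfCoprime 5 hc5e * z₀ = z₀ := by
      intro h
      have := congrArg (ZMod.unitsMap hHe) h
      rw [map_mul, mul_eq_right] at this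
      exact hσ5.1 this
    have a5 : ¬ v * (ZMod.unitOfCoprime 5 hc5e * z₀) = z₀ := by
      intro h
      have := congrArg (ZMod.unitsMap hHe) h
      rw [map_mul, hσv, one_mul, map_mul, mul_eq_right] at this
      exact hσ5.1 this
    have a6 : ¬ -(ZMod.unitOfCoprime 5 hc5e * z₀) = z₀ := by
      intro h
      have := congrArg (ZMod.unitsMap hHe) h
      rw [TA_unitsMap_neg, map_mul, ← neg_mul, mul_eq_right, neg_eq_iff_eq_neg] at this
      exact hσ5.2 this
    have a7 : ¬ -(v * (ZMod.unitOfCoprime 5 hc5e * z₀)) = z₀ := by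
      intro h
      have := congrArg (ZMod.unitsMap hHe) h
      rw [TA_unitsMap_neg, map_mul, hσv, one_mul, map_mul, ← neg_mul, mul_eq_right,
        neg_eq_iff_eq_neg] at this
      exact hσ5.2 this
    rw [if_pos rfl, if_neg a1, if_neg a2, if_neg a3, if_neg a4, if_neg a5, if_neg a6, if_neg a7]
    norm_num
  obtain ⟨q, hq, hqc⟩ := min_support (Gam e) L (indep_Gam e L (hL ▸ Finset.nodup_toList _) (by
    intro q hq
    rw [hLm] at hq
    exact Nat.primeFactors_mono hHe he0 hq)) _ hMDL z₀ (by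
      show Rop 5 e ν z₀ ≠ 0
      rw [hval]; norm_num)
  -- at most four points
  have hSl : Sl (Gam e) L (fun z => Rop 5 e ν z) z₀ ≤ 4 := by
    have hsub : ∀ y : (ZMod e)ˣ, y * z₀⁻¹ ∈ Pl (Gam e) L → Rop 5 e ν y ≠ 0 →
        y ∈ ({z₀, -(v * z₀), (ZMod.unitOfCoprime 5 hc5e)⁻¹ * (v * z₀),
          (ZMod.unitOfCoprime 5 hc5e)⁻¹ * (-z₀)} : Finset (ZMod e)ˣ) := by
      intro y hy1 hy2
      have hρ : ZMod.unitsMap h3e y = ZMod.unitsMap h3e z₀ := by
        have h6 := Pl_Gam_cast e 3 h3e L (by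
          intro q hq
          rw [hLm] at hq
          have hqp := Nat.prime_of_mem_primeFactors hq
          have hqH := Nat.dvd_of_mem_primeFactors hq
          refine ⟨hqH.trans hHe, ?_⟩
          obtain ⟨k, hk⟩ := hqH
          rw [heH, hk, mul_assoc, Nat.mul_div_cancel_left _ hqp.pos]
          exact ⟨k, mul_comm _ _⟩) _ hy1
        have h7 : ZMod.unitsMap h3e (y * z₀⁻¹) = 1 := by
          apply Units.ext
          rw [Units.val_one, ← h6]
          rfl
        rw [map_mul, map_inv, mul_inv_eq_one] at h7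
        exact h7
      simp only [Finset.mem_insert, Finset.mem_singleton]
      by_contra hcon
      push Not at hcon
      obtain ⟨c1, c2, c3, c4⟩ := hcon
      apply hy2
      have b1 : ¬ v * y = z₀ := by
        intro h
        have := congrArg (ZMod.unitsMap h3e) h
        rw [map_mul, hρv, hρ, mul_eq_right] at this
        exact h13 this.symm
      have b2 : ¬ -y = z₀ := by
        intro h
        have := congrArg (ZMod.unitsMap h3e) h
        rw [TA_unitsMap_neg, hρ, ← neg_one_mul, mul_eq_right] at this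
        exact h13 this.symm
      have b3 : ¬ -(v * y) = z₀ := by
        intro h
        apply c2
        rw [← h, mul_neg, neg_neg, ← mul_assoc, hvv, one_mul]
      have b4 : ¬ ZMod.unitOfCoprime 5 hc5e * y = z₀ := by
        intro h
        have := congrArg (ZMod.unitsMap h3e) h
        rw [map_mul, hρ5, hρ, mul_eq_right] at this
        exact h13 this.symm
      have b5 : ¬ v * (ZMod.unitOfCoprime 5 hc5e * y) = z₀ := by
        intro h
        apply c3
        rw [← h, ← mul_assoc v v, hvv, one_mul, inv_mul_cancel_left]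
      have b6 : ¬ -(ZMod.unitOfCoprime 5 hc5e * y) = z₀ := by
        intro h
        apply c4
        rw [← h, neg_neg, inv_mul_cancel_left]
      have b7 : ¬ -(v * (ZMod.unitOfCoprime 5 hc5e * y)) = z₀ := by
        intro h
        have := congrArg (ZMod.unitsMap h3e) h
        rw [TA_unitsMap_neg, map_mul, map_mul, hρv, hρ5, hρ, neg_one_mul, neg_one_mul, neg_neg,
          ← neg_one_mul, mul_eq_right] at this
        exact h13 this.symm
      rw [hc5, hν y, hν (ZMod.unitOfCoprime 5 hc5e * y), if_neg c1, if_neg b1, if_neg b2,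
        if_neg b3, if_neg b4, if_neg b5, if_neg b6, if_neg b7]
      norm_num
    have h6 : Sl (Gam e) L (fun z => Rop 5 e ν z) z₀ ≤
        (({z₀, -(v * z₀), (ZMod.unitOfCoprime 5 hc5e)⁻¹ * (v * z₀),
          (ZMod.unitOfCoprime 5 hc5e)⁻¹ * (-z₀)} : Finset (ZMod e)ˣ)).card := by
      unfold Sl
      rw [← Fintype.card_coe, ← Nat.card_eq_fintype_card]
      refine Nat.card_le_card_of_injective
        (fun y : {y : (ZMod e)ˣ // y * z₀⁻¹ ∈ Pl (Gam e) L ∧ Rop 5 e ν y ≠ 0} =>
          (⟨y.1, hsub y.1 y.2.1 y.2.2⟩ : {y // y ∈ ({z₀, -(v * z₀),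
            (ZMod.unitOfCoprime 5 hc5e)⁻¹ * (v * z₀),
            (ZMod.unitOfCoprime 5 hc5e)⁻¹ * (-z₀)} : Finset (ZMod e)ˣ)})) ?_
      intro a b hab
      simp only [Subtype.mk.injEq] at hab
      exact Subtype.ext hab
    exact h6.trans Finset.card_le_four
  have hq' := (hLm q).1 hq
  have h7 := hHq q hq'
  rw [card_Gam e q (Nat.prime_of_mem_primeFactors hq')
    ((Nat.dvd_of_mem_primeFactors hq').trans hHe)] at hqc
  split_ifs at hqc <;> omega

end Pool.Agent.helper88.OF
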