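import Pool.Agent.helper48.OF.Gen
import Pool.Agent.helper97.OF.MV

/-! # Project OF, module TC: at most one pair of points of order `D / 3` -/

namespace Pool.Agent.helper88.OF

open Finset Pool.Agent.helper76.LP

/-- the elements of `Gam D 3` -/
lemma TC_gam3 {D : ℕ} [NeZero D] (h3 : 3 ∣ D) (h9 : ¬ 9 ∣ D) (w : (ZMod D)ˣ)
    (hw : w ∈ Gam D 3) (hw1 : w ≠ 1) (hww : w * w = 1) (a : (ZMod D)ˣ) (ha : a ∈ Gam D 3) :
    a = 1 ∨ a = w := by
  by_cases ha1 : a = 1
  · exact Or.inl ha1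
  · right
    have h1 := TB_mod3 h3 h9 a ha ha1
    have h2 := TB_mod3 h3 h9 w hw hw1
    by_cases h4 : a * w = 1
    · have h5 : a * w * w = w := by rw [h4, one_mul]
      rwa [mul_assoc, hww, mul_one] at h5
    · have h5 := TB_mod3 h3 h9 (a * w) ((Gam D 3).mul_mem ha hw) h4
      rw [map_mul, h1, h2, neg_one_mul, neg_neg] at h5
      exact absurd h5 (TB_one_ne le_rfl)

lemma TC_fin {D : ℕ} [NeZero D] (K : Subgroup (ZMod D)ˣ) (q : (ZMod D)ˣ → Prop)
    [DecidablePred fun t : (ZMod D)ˣ => t ∈ K ∧ q t] :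
    (univ.filter (fun t : (ZMod D)ˣ => t ∈ K ∧ q t)).card = Nat.card {w : K // q w} := by
  rw [← Fintype.card_coe, ← Nat.card_eq_fintype_card]
  refine Nat.card_congr ((Equiv.subtypeEquivRight fun x => ?_).trans
    (Equiv.subtypeSubtypeEquivSubtypeInter (fun t => t ∈ K) q).symm)
  rw [Finset.mem_filter]
  simp

/-- the counting argument -/
lemma TC_count {D e : ℕ} [NeZero D] [NeZero e] (K : Subgroup (ZMod D)ˣ) (K' : Subgroup (ZMod e)ˣ)
    (π : (ZMod D)ˣ →* (ZMod e)ˣ) (hsurj : ∀ a ∈ K', ∃ t ∈ K, π t = a)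
    (hK : Nat.card K = 4) (f : (ZMod D)ˣ → ℤ)
    (hf : Nat.card {w : K // f w ≤ 0} = 2) (h : (ZMod e)ˣ → ℤ) (c : ℤ) (hc : c ≠ 0)
    (hh : ∀ t ∈ K, h (π t) = c * (f t - 1)) (v : ℤ) [Fintype K']
    [DecidablePred fun a : K' => h a = v] :
    (univ.filter (fun a : K' => h a = v)).card ≤ 2 := by
  classical
  have h1 : (univ.filter (fun a : K' => h a = v)).card ≤
      (univ.filter (fun t : (ZMod D)ˣ => t ∈ K ∧ c * (f t - 1) = v)).card := by
    rw [← Finset.card_image_of_injective (univ.filter (fun a : K' => h a = v))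
      Subtype.val_injective]
    refine le_trans (Finset.card_le_card ?_) (Finset.card_image_le (f := fun t => π t))
    intro a ha
    obtain ⟨b, hb, rfl⟩ := Finset.mem_image.1 ha
    rw [Finset.mem_filter] at hb
    obtain ⟨t, ht, htb⟩ := hsurj b.1 b.2
    rw [Finset.mem_image]
    refine ⟨t, ?_, htb⟩
    rw [Finset.mem_filter]
    refine ⟨Finset.mem_univ _, ht, ?_⟩
    rw [← hh t ht, htb]
    exact hb.2
  refine h1.trans ?_
  have hS := TC_fin K (fun t => f t ≤ 0)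
  rw [hf] at hS
  have hS' : (univ.filter (fun t : (ZMod D)ˣ => t ∈ K ∧ ¬ f t ≤ 0)).card = 2 := by
    have h2 : (univ.filter (fun t : (ZMod D)ˣ => t ∈ K)).card = 4 := by
      rw [← hK, ← Fintype.card_subtype, Nat.card_eq_fintype_card]
    have h3 := Finset.card_filter_add_card_filter_not
      (s := univ.filter (fun t : (ZMod D)ˣ => t ∈ K)) (fun t => f t ≤ 0)
    rw [Finset.filter_filter, Finset.filter_filter, h2, hS] at h3
    omega
  by_cases hex : ∃ t ∈ K, c * (f t - 1) = v ∧ f t ≤ 0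
  · obtain ⟨t0, -, ht0, ht0'⟩ := hex
    rw [← hS]
    refine Finset.card_le_card ?_
    intro t ht
    rw [Finset.mem_filter] at ht ⊢
    refine ⟨ht.1, ht.2.1, ?_⟩
    have h2 : c * (f t - 1) = c * (f t0 - 1) := by rw [ht.2.2, ht0]
    have h3 := mul_left_cancel₀ hc h2
    linarith
  · push Not at hex
    rw [← hS']
    refine Finset.card_le_card ?_
    intro t ht
    rw [Finset.mem_filter] at ht ⊢
    exact ⟨ht.1, ht.2.1, not_le.2 (hex t ht.2.1 ht.2.2)⟩

theorem tie_b (m : ℕ) [NeZero m] (h2 : Odd m) (u : (ZMod m)ˣ) (hu : IsTw m u)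
    (F : ZMod m → ℤ) (hodd : ∀ x, F (-x) = - F x) (hT : TateF F)
    (D : ℕ) [NeZero D] (hD : D ∣ m) (h3 : 3 ∣ D) (h9 : ¬ 9 ∣ D) (h5 : 5 ∣ D) (h25 : ¬ 25 ∣ D)
    (h15 : D ≠ 15) (hsupp : ∀ x, F x ≠ 0 → addOrderOf x ∣ D) (x₀ : (ZMod D)ˣ)
    (hP : ∀ z : (ZMod D)ˣ, F (emb D m (z : ZMod D)) - F ((u : ZMod m) * emb D m (z : ZMod D)) =
      orb (Gam D 5) (ZMod.unitsMap hD u) (z * x₀⁻¹))
    (hN : Nrm u F)
    (hk : Nat.card {w : Gam D 5 // F (emb D m (((w : (ZMod D)ˣ) * x₀ : (ZMod D)ˣ) : ZMod D)) ≤ 0}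
      = 2)
    (h0 : ∑ x, (if addOrderOf x = D / 3 then |F x| else 0) ≤ 2) : False := by
  classical
  obtain ⟨e, H, he, hH, hHe, hH1, hHq, he0, hH0, heH⟩ := TB_levels (p := 3) (by norm_num)
    (Odd.of_dvd_nat h2 hD) h3 h9 h5 h25 h15 (Or.inl rfl)
  norm_num at heH
  have : NeZero e := ⟨he0⟩
  have : NeZero H := ⟨hH0⟩
  have : NeZero (H * 3) := ⟨by omega⟩
  have he5 : (H * 3) * 5 = D := by omega
  have heD : e ∣ D := Dvd.intro 3 he
  have hem : e ∣ m := heD.trans hD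
  have hHD : H ∣ D := hHe.trans heD
  have hHm : H ∣ m := hHD.trans hD
  have h5e : 5 ∣ e := ⟨H, by omega⟩
  have h3H : ¬ 3 ∣ H := by
    rintro ⟨k, hk⟩
    exact h9 ⟨5 * k, by omega⟩
  have h5H : ¬ 5 ∣ H := by
    rintro ⟨k, hk⟩
    exact h25 ⟨3 * k, by omega⟩
  have hc3e : Nat.Coprime 3 e := by
    rw [Nat.Prime.coprime_iff_not_dvd (by norm_num)]
    rintro ⟨k, hk⟩
    exact h9 ⟨k, by omega⟩
  have hDe3 : D / 3 = e := by omega
  have hH3 : 3 ≤ H := by
    obtain ⟨l, hl⟩ := Odd.of_dvd_nat h2 hHm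
    omega
  obtain ⟨w, hw⟩ : ∃ w, w = ZMod.unitsMap hD u := ⟨_, rfl⟩
  have hww : w * w = 1 := by rw [hw, ← map_mul, hu.1, map_one]
  have hw3 : w ∈ Gam D 3 ∧ w ≠ 1 := hw ▸ hu.2.2 D hD h3 h9
  have hρw : ZMod.unitsMap h3 w = -1 := TB_mod3 h3 h9 w hw3.1 hw3.2
  have hτw : ZMod.unitsMap hHD w = 1 := by
    rw [hw, TB_unitsMap_comp]
    exact hu.2.1 H hHm h3H
  have hπw : ZMod.unitsMap heD w = 1 := (GA_mem he (by norm_num) w).1 hw3.1
  have h13 : (1 : (ZMod 3)ˣ) ≠ -1 := TB_one_ne le_rfl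
  have h1H : (1 : (ZMod H)ˣ) ≠ -1 := TB_one_ne hH3
  -- the elements of `Gam D 5`
  have hρt : ∀ t ∈ Gam D 5, ZMod.unitsMap h3 t = 1 := by
    intro t ht
    have h6 := Gam_le_ker D 5 3 h3 h5 ⟨H, by omega⟩ ht
    rwa [MonoidHom.mem_ker] at h6
  have hτt : ∀ t ∈ Gam D 5, ZMod.unitsMap hHD t = 1 := by
    intro t ht
    have h6 := Gam_le_ker D 5 H hHD h5 ⟨3, by omega⟩ ht
    rwa [MonoidHom.mem_ker] at h6
  have i1 : ∀ t ∈ Gam D 5, ind (Gam D 5) t = 1 := by
    intro t ht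
    unfold ind
    rw [if_pos ht]
  have i2 : ∀ t ∈ Gam D 5, ind (Gam D 5) (-t) = 0 := by
    intro t ht
    unfold ind
    rw [if_neg]
    intro h
    have h6 := hρt _ h
    rw [TA_unitsMap_neg, hρt t ht] at h6
    exact h13 h6.symm
  have i3 : ∀ t ∈ Gam D 5, ind (Gam D 5) (w * t) = 0 := by
    intro t ht
    unfold ind
    rw [if_neg]
    intro h
    have h6 := hρt _ h
    rw [map_mul, hρw, hρt t ht, mul_one] at h6
    exact h13 h6.symm
  have i4 : ∀ t ∈ Gam D 5, ind (Gam D 5) (-(w * t)) = 0 := by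
    intro t ht
    unfold ind
    rw [if_neg]
    intro h
    have h6 := hτt _ h
    rw [TA_unitsMap_neg, map_mul, hτw, hτt t ht, mul_one] at h6
    exact h1H h6.symm
  rw [← hw] at hP
  -- the function on the units modulo `D`
  obtain ⟨f, hf⟩ : ∃ f : (ZMod D)ˣ → ℤ, f = fun z : (ZMod D)ˣ => F (emb D m (z : ZMod D)) :=
    ⟨_, rfl⟩
  have hff : ∀ z : (ZMod D)ˣ, F (emb D m (z : ZMod D)) = f z := by intro z; rw [hf]
  have hk2 : Nat.card {w : Gam D 5 // f ((w : (ZMod D)ˣ) * x₀) ≤ 0} = 2 := by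
    rw [hf]; exact hk
  have hfodd : ∀ z, f (-z) = - f z := by
    intro z
    rw [← hff, ← hff, Units.val_neg, emb_neg hD, hodd]
  have hPf : ∀ z, f z - f (w * z) = orb (Gam D 5) w (z * x₀⁻¹) := by
    intro z
    rw [← hP, TA_mul_emb hD, ← hw, hff, hff]
  have hNf : ∀ z, f z * f (w * z) ≤ 0 := by
    intro z
    have h6 := hN (emb D m (z : ZMod D)) (by rw [addOrderOf_emb hD]; exact h3)
    rwa [TA_mul_emb hD, ← hw, hff, hff] at h6
  have hf01 : ∀ t ∈ Gam D 5, f (t * x₀) = 0 ∨ f (t * x₀) = 1 := by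
    intro t ht
    have h6 := hPf (t * x₀)
    have h7 := hNf (t * x₀)
    rw [mul_inv_cancel_right] at h6
    unfold orb at h6
    rw [i1 t ht, i2 t ht, i3 t ht, i4 t ht] at h6
    have h8 : f (w * (t * x₀)) = f (t * x₀) - 1 := by linarith
    rw [h8] at h7
    have h9 : 0 ≤ f (t * x₀) := by
      by_contra h
      push Not at h
      nlinarith
    have h10 : f (t * x₀) ≤ 1 := by
      by_contra h
      push Not at h
      nlinarith
    omega
  -- the two functions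
  obtain ⟨N5, hN5⟩ : ∃ N5 : (ZMod D)ˣ → ℤ, ∀ z, N5 z =
      ind (Gam D 5) (z * x₀⁻¹) - ind (Gam D 5) (-(z * x₀⁻¹)) := ⟨_, fun _ => rfl⟩
  obtain ⟨N3, hN3⟩ : ∃ N3 : (ZMod D)ˣ → ℤ, ∀ z, N3 z = f z - N5 z := ⟨_, fun _ => rfl⟩
  have hN5odd : ∀ z, N5 (-z) = - N5 z := by
    intro z
    rw [hN5, hN5, neg_mul, neg_neg]; ring
  have hN3odd : ∀ z, N3 (-z) = - N3 z := by
    intro z
    rw [hN3, hN3, hfodd, hN5odd]; ring
  have hN3w : ∀ z, N3 (w * z) = N3 z := by
    intro z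
    have h6 := hPf z
    unfold orb at h6
    rw [hN3, hN3, hN5, hN5, mul_assoc]
    linarith
  have hN3t : ∀ t ∈ Gam D 5, N3 (t * x₀) = f (t * x₀) - 1 := by
    intro t ht
    rw [hN3, hN5, mul_inv_cancel_right, i1 t ht, i2 t ht]; ring
  obtain ⟨g5, ν5, -, -, -, hanti5, hT5, -⟩ := move1 m D (H * 3) 5 hD he5 (by norm_num) N5 (by
    intro t ht x
    rw [hN5, hN5, mul_assoc, ← mul_neg, TB_ind_mul _ _ _ ht, TB_ind_mul _ _ _ ht]) hN5odd
  obtain ⟨g3, ν, hν, hνodd, -, hanti3, hT3, -⟩ := move1 m D e 3 hD he (by norm_num) N3 (by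
    intro a ha x
    rcases TC_gam3 h3 h9 w hw3.1 hw3.2 hww a ha with rfl | rfl
    · rw [one_mul]
    · exact hN3w x) hN3odd
  have hFT : TateF (fun x => F x - anti g5 x - anti g3 x) :=
    TB_tateF_sub (TB_tateF_sub hT hT5) hT3
  have hFodd : ∀ x, F (-x) - anti g5 (-x) - anti g3 (-x) = - (F x - anti g5 x - anti g3 x) := by
    intro x
    rw [hodd, anti_odd, anti_odd]; ring
  have hMD : ∀ L : List ℕ, (∀ q ∈ e.primeFactors, q ∈ L) → MDv (Gam e) L
      (fun z => F (emb e m (z : ZMod e)) - anti g5 (emb e m (z : ZMod e)) -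
        anti g3 (emb e m (z : ZMod e))) := by
    intro L hL
    refine mdiff m _ hFodd hFT e hem ?_ L hL
    intro x hx1 hx2
    show F x - anti g5 x - anti g3 x = 0
    have hx5 : addOrderOf x ≠ H * 3 := by
      intro h
      rw [h] at hx1
      obtain ⟨k, hk⟩ := h5e.trans hx1
      exact h25 ⟨k, by omega⟩
    by_cases hxD : addOrderOf x = D
    · obtain ⟨z, rfl⟩ := exists_emb x hxD
      rw [hanti5, hanti3, ext_emb hD, ext_emb hD, ext_of_order_ne hem _ _ hx2,
        ext_of_order_ne (Dvd.intro 5 he5 |>.trans hD) _ _ hx5, hff, hN3]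
      ring
    · have hxD' : ¬ addOrderOf x ∣ D := by
        rintro ⟨k, hk⟩
        obtain ⟨l, hl⟩ := hx1
        have hkl : l * k = 3 := by
          have h6 : e * (l * k) = e * 3 := by rw [he, hk, hl]; ring
          exact Nat.eq_of_mul_eq_mul_left (Nat.pos_of_ne_zero he0) h6
        have hl5 : l ∣ 3 := ⟨k, hkl.symm⟩
        rcases (Nat.dvd_prime (by norm_num)).1 hl5 with rfl | rfl
        · exact hx2 (by rw [hl, mul_one])
        · exact hxD (by rw [hl, he])
      have hF1 : F x = 0 := by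
        by_contra h
        exact hxD' (hsupp x h)
      rw [hF1, hanti5, hanti3, ext_of_order_ne hD _ _ hxD, ext_of_order_ne hD _ _ hxD,
        ext_of_order_ne hem _ _ hx2, ext_of_order_ne (Dvd.intro 5 he5 |>.trans hD) _ _ hx5]
      ring
  have hc3 : ∀ y, Rop 3 e ν y = ν y - ν (ZMod.unitOfCoprime 3 hc3e * y) := by
    intro y
    unfold Rop
    rw [dif_pos hc3e]
  obtain ⟨h, hh⟩ : ∃ h : (ZMod e)ˣ → ℤ, ∀ y, h y = F (emb e m (y : ZMod e)) + ν y -
      ν (ZMod.unitOfCoprime 3 hc3e * y) := ⟨_, fun _ => rfl⟩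
  have hFe : (fun z : (ZMod e)ˣ => F (emb e m (z : ZMod e)) - anti g5 (emb e m (z : ZMod e)) -
        anti g3 (emb e m (z : ZMod e))) = h := by
    funext z
    have ho := addOrderOf_emb hem z
    rw [hh, hanti5, hanti3, ext_of_order_ne hD _ _ (by rw [ho]; omega),
      ext_of_order_ne hD _ _ (by rw [ho]; omega), ext_of_order_ne (Dvd.intro 5 he5 |>.trans hD) _ _
      (by rw [ho]; omega), ext_emb hem, hc3]
    ring
  rw [hFe] at hMD
  -- the support of `ν`
  obtain ⟨z₀, hz₀⟩ : ∃ z₀, z₀ = ZMod.unitsMap heD x₀ := ⟨_, rfl⟩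
  have hνs : ∀ y, ν y ≠ 0 → ∃ t, t ∈ Gam D 5 ∧ f (t * x₀) ≤ 0 ∧
      (y = ZMod.unitsMap heD t * z₀ ∨ y = -(ZMod.unitsMap heD t * z₀)) := by
    have key : ∀ t ∈ Gam D 5, N3 (t * x₀) ≠ 0 → f (t * x₀) ≤ 0 := by
      intro t ht h6
      rw [hN3t t ht] at h6
      rcases hf01 t ht with h7 | h7
      · rw [h7]
      · rw [h7] at h6; exact absurd rfl h6
    intro y hy
    obtain ⟨z, rfl⟩ := ZMod.unitsMap_surjective heD y
    rw [← hν] at hy
    by_cases c1 : z * x₀⁻¹ ∈ Gam D 5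
    · refine ⟨_, c1, key _ c1 ?_, Or.inl ?_⟩
      · rwa [inv_mul_cancel_right]
      · rw [hz₀, ← map_mul, inv_mul_cancel_right]
    by_cases c2 : -(z * x₀⁻¹) ∈ Gam D 5
    · refine ⟨_, c2, key _ c2 ?_, Or.inr ?_⟩
      · rw [neg_mul, inv_mul_cancel_right, hN3odd]
        exact neg_ne_zero.2 hy
      · rw [hz₀, ← map_mul, neg_mul, inv_mul_cancel_right, TA_unitsMap_neg, neg_neg]
    by_cases c3 : w * (z * x₀⁻¹) ∈ Gam D 5
    · refine ⟨_, c3, key _ c3 ?_, Or.inl ?_⟩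
      · rwa [← mul_assoc, inv_mul_cancel_right, hN3w]
      · rw [hz₀, ← map_mul, ← mul_assoc, inv_mul_cancel_right, map_mul, hπw, one_mul]
    by_cases c4 : -(w * (z * x₀⁻¹)) ∈ Gam D 5
    · refine ⟨_, c4, key _ c4 ?_, Or.inr ?_⟩
      · rw [neg_mul, ← mul_assoc, inv_mul_cancel_right, hN3odd, hN3w]
        exact neg_ne_zero.2 hy
      · rw [hz₀, ← map_mul, neg_mul, ← mul_assoc, inv_mul_cancel_right, TA_unitsMap_neg, neg_neg,
          map_mul, hπw, one_mul]
    exfalso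
    apply hy
    have h6 := hPf z
    have h7 := hNf z
    unfold orb ind at h6
    rw [if_neg c1, if_neg c2, if_neg c3, if_neg c4] at h6
    have h8 : f (w * z) = f z := by linarith
    rw [h8] at h7
    have h9 : f z = 0 := by nlinarith [mul_self_nonneg (f z)]
    rw [hN3, hN5, h9]
    unfold ind
    rw [if_neg c1, if_neg c2]; norm_num
  -- reduction modulo `H`
  have hσt : ∀ t ∈ Gam D 5, ZMod.unitsMap hHe (ZMod.unitsMap heD t) = 1 := by
    intro t ht
    rw [TB_unitsMap_comp]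
    exact hτt t ht
  have hσ3 := TB_ne hH1 hHq 3 (hc3e.coprime_dvd_right hHe) (Or.inl rfl)
  rw [← TB_unitsMap_coprime hHe 3 hc3e] at hσ3
  obtain ⟨b, hb⟩ : ∃ b, b = ZMod.unitOfCoprime 3 hc3e := ⟨_, rfl⟩
  rw [← hb] at hσ3
  have hh' : ∀ y, h y = F (emb e m (y : ZMod e)) + ν y - ν (b * y) := by
    intro y; rw [hh, hb]
  have hν1 : ∀ t ∈ Gam D 5, ν (b * (ZMod.unitsMap heD t * z₀)) = 0 := by
    intro t ht
    by_contra h6
    obtain ⟨s, hs, -, h7⟩ := hνs _ h6
    rcases h7 with h7 | h7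
    · have h8 := congrArg (ZMod.unitsMap hHe) h7
      rw [map_mul, map_mul, map_mul, hσt t ht, hσt s hs, one_mul, mul_eq_right] at h8
      exact hσ3.1 h8
    · have h8 := congrArg (ZMod.unitsMap hHe) h7
      rw [TA_unitsMap_neg, map_mul, map_mul, map_mul, hσt t ht, hσt s hs, one_mul,
        ← neg_one_mul, mul_left_inj] at h8
      exact hσ3.2 h8
  have hν2 : ∀ t ∈ Gam D 5, ν (b⁻¹ * (ZMod.unitsMap heD t * z₀)) = 0 := by
    intro t ht
    by_contra h6
    obtain ⟨s, hs, -, h7⟩ := hνs _ h6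
    rcases h7 with h7 | h7
    · have h8 := congrArg (ZMod.unitsMap hHe) h7
      rw [map_mul, map_mul, map_mul, hσt t ht, hσt s hs, one_mul, mul_eq_right, map_inv,
        inv_eq_one] at h8
      exact hσ3.1 h8
    · have h8 := congrArg (ZMod.unitsMap hHe) h7
      rw [TA_unitsMap_neg, map_mul, map_mul, map_mul, hσt t ht, hσt s hs, one_mul,
        ← neg_one_mul, mul_left_inj, map_inv, inv_eq_iff_eq_inv, inv_neg, inv_one] at h8
      exact hσ3.2 h8
  -- the points of `F` of order `e`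
  have hFsum : ∑ y : (ZMod e)ˣ, |F (emb e m (y : ZMod e))| ≤ 2 := by
    rw [hDe3] at h0
    rw [← TA_sum_emb e hem (fun x => |F x|)]
    exact h0
  have hFodd' : ∀ y : (ZMod e)ˣ, F (emb e m ((-y : (ZMod e)ˣ) : ZMod e)) =
      - F (emb e m (y : ZMod e)) := by
    intro y
    rw [Units.val_neg, emb_neg hem, hodd]
  have hFcos : (∀ t ∈ Gam D 5, F (emb e m ((ZMod.unitsMap heD t * z₀ : (ZMod e)ˣ) : ZMod e)) = 0) ∨
      (∀ t ∈ Gam D 5,
        F (emb e m ((b⁻¹ * (ZMod.unitsMap heD t * z₀) : (ZMod e)ˣ) : ZMod e)) = 0) := by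
    by_contra hcon
    rw [not_or] at hcon
    obtain ⟨k1, k2⟩ := hcon
    push Not at k1 k2
    obtain ⟨t, ht, h6⟩ := k1
    obtain ⟨s, hs, h7⟩ := k2
    obtain ⟨p1, hp1⟩ : ∃ p1, p1 = ZMod.unitsMap heD t * z₀ := ⟨_, rfl⟩
    obtain ⟨p2, hp2⟩ : ∃ p2, p2 = b⁻¹ * (ZMod.unitsMap heD s * z₀) := ⟨_, rfl⟩
    rw [← hp1] at h6
    rw [← hp2] at h7
    have hσ1 : ZMod.unitsMap hHe p1 = ZMod.unitsMap hHe z₀ := by
      rw [hp1, map_mul, hσt t ht, one_mul]
    have hσ2 : ZMod.unitsMap hHe p2 = (ZMod.unitsMap hHe b)⁻¹ * ZMod.unitsMap hHe z₀ := by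
      rw [hp2, map_mul, map_mul, hσt s hs, one_mul, map_inv]
    have n1 : p1 ≠ -p1 := by
      intro h
      have h8 := congrArg (ZMod.unitsMap hHe) h
      rw [TA_unitsMap_neg, ← neg_one_mul, right_eq_mul] at h8
      exact h1H h8.symm
    have n2 : p2 ≠ -p2 := by
      intro h
      have h8 := congrArg (ZMod.unitsMap hHe) h
      rw [TA_unitsMap_neg, ← neg_one_mul, right_eq_mul] at h8
      exact h1H h8.symm
    have n3 : p1 ≠ p2 := by
      intro h
      have h8 := congrArg (ZMod.unitsMap hHe) h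
      rw [hσ1, hσ2, right_eq_mul, inv_eq_one] at h8
      exact hσ3.1 h8
    have n4 : p1 ≠ -p2 := by
      intro h
      have h8 := congrArg (ZMod.unitsMap hHe) h
      rw [TA_unitsMap_neg, hσ1, hσ2, ← neg_mul, right_eq_mul, neg_eq_iff_eq_neg,
        inv_eq_iff_eq_inv, inv_neg, inv_one] at h8
      exact hσ3.2 h8
    have hcard : ({p1, -p1, p2, -p2} : Finset (ZMod e)ˣ).card = 4 := by
      rw [Finset.card_insert_of_notMem, Finset.card_insert_of_notMem,
        Finset.card_insert_of_notMem, Finset.card_singleton]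
      · rw [Finset.mem_singleton]; exact n2
      · rw [Finset.mem_insert, Finset.mem_singleton]
        rintro (h | h)
        · exact n4 (neg_eq_iff_eq_neg.1 h)
        · exact n3 (neg_injective h)
      · rw [Finset.mem_insert, Finset.mem_insert, Finset.mem_singleton]
        rintro (h | h | h)
        · exact n1 h
        · exact n3 h
        · exact n4 h
    have h8 : (4 : ℤ) ≤ ∑ y : (ZMod e)ˣ, |F (emb e m (y : ZMod e))| := by
      calc (4 : ℤ) = ∑ y ∈ ({p1, -p1, p2, -p2} : Finset (ZMod e)ˣ), (1 : ℤ) := by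
            rw [Finset.sum_const, hcard]; norm_num
        _ ≤ ∑ y ∈ ({p1, -p1, p2, -p2} : Finset (ZMod e)ˣ), |F (emb e m (y : ZMod e))| := by
            apply Finset.sum_le_sum
            intro y hy
            apply Int.one_le_abs
            simp only [Finset.mem_insert, Finset.mem_singleton] at hy
            rcases hy with rfl | rfl | rfl | rfl
            · exact h6
            · rw [hFodd']; exact neg_ne_zero.2 h6
            · exact h7
            · rw [hFodd']; exact neg_ne_zero.2 h7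
        _ ≤ ∑ y : (ZMod e)ˣ, |F (emb e m (y : ZMod e))| :=
            Finset.sum_le_sum_of_subset_of_nonneg (Finset.subset_univ _)
              fun _ _ _ => abs_nonneg _
    linarith
  -- the support of `h`
  obtain ⟨S, hS⟩ : ∃ S : Finset (ZMod D)ˣ,
      S = univ.filter (fun t : (ZMod D)ˣ => t ∈ Gam D 5 ∧ f (t * x₀) ≤ 0) := ⟨_, rfl⟩
  have hSc : S.card = 2 := by
    rw [hS, TC_fin (Gam D 5) (fun t => f (t * x₀) ≤ 0), hk2]
  obtain ⟨T, hT'⟩ : ∃ T : Finset (ZMod e)ˣ, T = S.image (fun t => ZMod.unitsMap heD t * z₀) ∪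
      S.image (fun t => -(ZMod.unitsMap heD t * z₀)) := ⟨_, rfl⟩
  have hTc : T.card ≤ 4 := by
    rw [hT']
    refine (Finset.card_union_le _ _).trans ?_
    have h6 := Finset.card_image_le (s := S) (f := fun t => ZMod.unitsMap heD t * z₀)
    have h7 := Finset.card_image_le (s := S) (f := fun t => -(ZMod.unitsMap heD t * z₀))
    omega
  have hνT : ∀ y, ν y ≠ 0 → y ∈ T := by
    intro y hy
    obtain ⟨t, ht, ht0, h6⟩ := hνs y hy
    have htS : t ∈ S := by
      rw [hS, Finset.mem_filter]; exact ⟨Finset.mem_univ _, ht, ht0⟩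
    rw [hT', Finset.mem_union, Finset.mem_image, Finset.mem_image]
    rcases h6 with h6 | h6
    · exact Or.inl ⟨t, htS, h6.symm⟩
    · exact Or.inr ⟨t, htS, h6.symm⟩
  have hsupph : (univ.filter (fun y => h y ≠ 0)).card ≤ 10 := by
    have h6 : univ.filter (fun y => h y ≠ 0) ⊆
        (univ.filter (fun y : (ZMod e)ˣ => F (emb e m (y : ZMod e)) ≠ 0) ∪ T) ∪
          T.image (fun y => b⁻¹ * y) := by
      intro y hy
      rw [Finset.mem_filter, hh'] at hy
      rw [Finset.mem_union, Finset.mem_union, Finset.mem_filter, Finset.mem_image]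
      by_contra hcon
      push Not at hcon
      obtain ⟨⟨c1, c2⟩, c3⟩ := hcon
      have d1 : F (emb e m (y : ZMod e)) = 0 := c1 (Finset.mem_univ _)
      have d2 : ν y = 0 := by
        by_contra h; exact c2 (hνT y h)
      have d3 : ν (b * y) = 0 := by
        by_contra h
        exact c3 _ (hνT _ h) (inv_mul_cancel_left b y)
      apply hy.2
      rw [d1, d2, d3]; norm_num
    have h7 := Finset.card_le_card h6
    have h8 := Finset.card_union_le
      (univ.filter (fun y : (ZMod e)ˣ => F (emb e m (y : ZMod e)) ≠ 0) ∪ T)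
      (T.image (fun y => b⁻¹ * y))
    have h9 := Finset.card_union_le
      (univ.filter (fun y : (ZMod e)ˣ => F (emb e m (y : ZMod e)) ≠ 0)) T
    have h10 := Finset.card_image_le (s := T) (f := fun y => b⁻¹ * y)
    have h11 := card_supp_le (fun y : (ZMod e)ˣ => F (emb e m (y : ZMod e)))
    have h12 : (univ.filter (fun y : (ZMod e)ˣ => F (emb e m (y : ZMod e)) ≠ 0)).card ≤ 2 := by
      have := h11.trans hFsum
      exact_mod_cast this
    omega
  -- surjectivity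
  have hcD5 : Nat.card (Gam D 5) = 4 := by
    rw [card_Gam D 5 (by norm_num) h5, if_neg (by norm_num; exact h25)]
  have hce5 : Nat.card (Gam e 5) = 4 := by
    rw [card_Gam e 5 (by norm_num) h5e, if_neg]
    norm_num
    exact fun h => h25 (h.trans heD)
  have hπ5 : ∀ t ∈ Gam D 5, ZMod.unitsMap heD t ∈ Gam e 5 := by
    intro t ht
    have h6 : H * 5 = e := heH.symm
    rw [GA_mem h6 (by norm_num), TB_unitsMap_comp]
    exact hτt t ht
  have hsurj : ∀ a ∈ Gam e 5, ∃ t ∈ Gam D 5, ZMod.unitsMap heD t = a := by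
    have hinj : Function.Injective
        (fun t : Gam D 5 => (⟨ZMod.unitsMap heD t.1, hπ5 t.1 t.2⟩ : Gam e 5)) := by
      intro t s hts
      simp only [Subtype.mk.injEq] at hts
      apply Subtype.ext
      have h6 : t.1 * s.1⁻¹ ∈ Gam D 3 := by
        rw [GA_mem he (by norm_num), map_mul, map_inv, mul_inv_eq_one]
        exact hts
      have h7 : t.1 * s.1⁻¹ ∈ Gam D 5 := (Gam D 5).mul_mem t.2 ((Gam D 5).inv_mem s.2)
      by_contra h8
      have h9' := TB_mod3 h3 h9 _ h6 (by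
        intro h
        exact h8 (mul_inv_eq_one.1 h))
      rw [hρt _ h7] at h9'
      exact h13 h9'
    have hbij := (Nat.bijective_iff_injective_and_card _).2 ⟨hinj, hcD5.trans hce5.symm⟩
    intro a ha
    obtain ⟨t, ht⟩ := hbij.2 ⟨a, ha⟩
    exact ⟨t.1, t.2, congrArg Subtype.val ht⟩
  -- the slices
  obtain ⟨L, hL⟩ : ∃ L : List ℕ, L = H.primeFactors.toList := ⟨_, rfl⟩
  have hLm : ∀ q, q ∈ L ↔ q ∈ H.primeFactors := by
    intro q; rw [hL, Finset.mem_toList]
  have hLne : L ≠ [] := by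
    obtain ⟨q, hq1, hq2⟩ := Nat.exists_prime_and_dvd (show H ≠ 1 by omega)
    have : q ∈ L := (hLm q).2 (Nat.mem_primeFactors.2 ⟨hq1, hq2, hH0⟩)
    exact List.ne_nil_of_mem this
  have hpf : e.primeFactors = H.primeFactors ∪ {5} := by
    rw [heH, Nat.primeFactors_mul hH0 (by norm_num), Nat.Prime.primeFactors (p := 5) (by norm_num)]
  have hMDL : MDv (Gam e) (5 :: L) h := hMD (5 :: L) (by
    intro q hq
    rw [List.mem_cons, hLm]
    rw [hpf, Finset.mem_union, Finset.mem_singleton] at hq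
    exact hq.symm)
  have hI : Indep (Gam e) (5 :: L) := indep_Gam e (5 :: L) (by
    rw [List.nodup_cons, hLm]
    exact ⟨fun h => h5H (Nat.dvd_of_mem_primeFactors h), hL ▸ Finset.nodup_toList _⟩) (by
    intro q hq
    rw [List.mem_cons, hLm] at hq
    rw [hpf, Finset.mem_union, Finset.mem_singleton]
    exact hq.symm)
  have hslices := KL_slices (Gam e) 5 L hI hLne h hMDL (by
    intro j hj a
    have h6 := XB_sl0 (Gam e) (5 :: L) h a
    have hj' := (hLm j).1 hj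
    have h7 := hHq j hj'
    have h8 : 6 ≤ Nat.card (Gam e j) := by
      rw [card_Gam e j (Nat.prime_of_mem_primeFactors hj')
        ((Nat.dvd_of_mem_primeFactors hj').trans hHe)]
      split_ifs <;> omega
    rw [hce5]
    omega)
  have hfin : ∀ (x : (ZMod e)ˣ) (c : ℤ), c ≠ 0 →
      (∀ t ∈ Gam D 5, h (ZMod.unitsMap heD t * x) = c * (f (t * x₀) - 1)) → False := by
    intro x c hc hx
    obtain ⟨v, hv⟩ := hslices x
    have h6 := TC_count (Gam D 5) (Gam e 5) (ZMod.unitsMap heD) hsurj hcD5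
      (fun t => f (t * x₀)) hk2 (fun y => h (y * x)) c hc hx (v 1)
    rw [← Nat.card_eq_fintype_card, hce5] at hv
    have h7 : (univ.filter (fun u : Gam e 5 => ∀ w : Pl (Gam e) L,
        h ((u : (ZMod e)ˣ) * w * x) = v w)).card ≤
        (univ.filter (fun a : Gam e 5 => h (a * x) = v 1)).card := by
      refine Finset.card_le_card ?_
      intro a ha
      rw [Finset.mem_filter] at ha ⊢
      refine ⟨ha.1, ?_⟩
      have h8 := ha.2 1
      rwa [OneMemClass.coe_one, mul_one] at h8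
    omega
  rcases hFcos with hF0 | hF0
  · refine hfin z₀ 1 (by norm_num) ?_
    intro t ht
    rw [hh', hF0 t ht, hν1 t ht, ← hN3t t ht, hν, map_mul, hz₀]
    ring
  · refine hfin (b⁻¹ * z₀) (-1) (by norm_num) ?_
    intro t ht
    rw [mul_left_comm, hh', hF0 t ht, hν2 t ht, mul_inv_cancel_left, ← hN3t t ht, hν, map_mul,
      hz₀]
    ring

end Pool.Agent.helper88.OF
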