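import Pool.Agent.helper86.OF.SpecB

/-! # OF, module BL4: removing a heavy vertex -/

open scoped BigOperators

namespace Pool.Agent.OF

noncomputable section

open Classical

theorem BL4_dg_mono {V : Type} [Fintype V] (H K : SimpleGraph V) (hHK : H ≤ K) (v : V) :
    dg H v ≤ dg K v := by
  unfold dg dgs
  refine Finset.card_le_card fun w hw => ?_
  exact Finset.mem_filter.mpr ⟨Finset.mem_univ _, hHK (Finset.mem_filter.mp hw).2⟩

theorem BL4_dg_le {V : Type} [Fintype V] (K : SimpleGraph V) (x0 y0 v : V) :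
    dg (Kd K x0 y0) v ≤ dg K v := BL4_dg_mono _ _ (SimpleGraph.deleteEdges_le _) v

theorem BL4_heavy {V : Type} [Fintype V] {K : SimpleGraph V} {X : Finset V} {D : ℕ} {x0 y0 : V}
    {r B : ℝ} (h : BHyp K X D x0 y0 r B) :
    ((X.filter fun v => r / (40 * B) < dg K v).card : ℝ) ≤ 40 * B ^ 2 := by
  have hB : 0 < B := by linarith [h.B1]
  have hr : 0 < r := by nlinarith [h.rB, h.B1]
  have h1 : ∀ v ∈ X, dg K v = dgs K Xᶜ v := by
    intro v hv
    unfold dg dgs
    congr 1
    ext w
    simp only [Finset.mem_filter, Finset.mem_univ, true_and, Finset.mem_compl]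
    exact ⟨fun hw => ⟨fun hwX => h.ind v hv w hwX hw, hw⟩, fun hw => hw.2⟩
  have h2 : ((X.filter fun v => r / (40 * B) < dg K v).card : ℝ) * (r / (40 * B)) ≤
      ep K X Xᶜ := by
    have h3 : ((X.filter fun v => r / (40 * B) < dg K v).card : ℝ) * (r / (40 * B)) ≤
        ∑ v ∈ X.filter (fun v => r / (40 * B) < dg K v), (dg K v : ℝ) := by
      rw [← nsmul_eq_mul]
      refine Finset.card_nsmul_le_sum _ _ _ fun v hv => ?_
      exact (Finset.mem_filter.mp hv).2.le
    refine h3.trans ?_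
    unfold ep
    push_cast
    refine (Finset.sum_le_sum_of_subset_of_nonneg (Finset.filter_subset _ _)
      fun v _ _ => Nat.cast_nonneg _).trans (le_of_eq ?_)
    refine Finset.sum_congr rfl fun v hv => ?_
    rw [h1 v hv]
  have h4 := h2.trans h.tot
  have h5 : ((X.filter fun v => r / (40 * B) < dg K v).card : ℝ) * (r / (40 * B)) ≤
      (40 * B ^ 2) * (r / (40 * B)) := by
    refine h4.trans (le_of_eq ?_)
    field_simp
  exact le_of_mul_le_mul_right h5 (by positivity)

/-- The exchange on the three vertices `x`, `z`, `w`. -/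
theorem BL4_exch (hKSW : KSW_stmt) {V : Type} [Fintype V] {K : SimpleGraph V} {X : Finset V}
    {D p : ℕ} {x0 y0 : V} {r B : ℝ} {c : Sym2 V → ℕ} {α γ : ℕ} (h : BHyp K X D x0 y0 r B)
    (hb : BCo K X D p x0 y0 c α) {x z w : V} (hx : x ∈ hvc K X x0 y0 r B c α)
    (hxz : (Kd K x0 y0).Adj x z) (hcxz : c s(x, z) = α) (hzw : (Kd K x0 y0).Adj z w)
    (hczw : c s(z, w) = γ) (hw : w ∈ X) (hγD : γ < D) (hγα : γ ≠ α)
    (hγx0 : ¬ has (Kd K x0 y0) c x0 γ)
    (hγx : ¬ has (Kd K x0 y0) c x γ) (hαw : ¬ has (Kd K x0 y0) c w α)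
    (hlight : ¬ (r / (40 * B) < dg K w)) :
    ∃ c', BCo K X D p x0 y0 c' α ∧ yyc K X x0 y0 c' α = yyc K X x0 y0 c α ∧
      (hvc K X x0 y0 r B c' α).card < (hvc K X x0 y0 r B c α).card := by
  set K' := Kd K x0 y0 with hK'
  unfold hvc at hx
  rw [Finset.mem_filter] at hx
  obtain ⟨hxX, hαx, hhx⟩ := hx
  have hzX : z ∉ X := fun hz => h.ind x hxX z hz ((SimpleGraph.deleteEdges_le _) hxz)
  have hγw : has K' c w γ := ⟨z, hzw.symm, by rw [Sym2.eq_swap]; exact hczw⟩
  have hxw : x ≠ w := fun e => hγx (e ▸ hγw)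
  have hxx0 : x ≠ x0 := fun e => hb.mis (e ▸ hαx)
  have hwx0 : w ≠ x0 := fun e => hγx0 (e ▸ hγw)
  have hzx0 : z ≠ x0 := fun e => hzX (e ▸ h.x0X)
  have hinj := hb.pec.2
  -- the set S
  set S : Finset V := {x, z, w} with hS
  have hmS : ∀ v, v ∈ S ↔ v = x ∨ v = z ∨ v = w := by
    intro v
    simp [hS]
  have hcl1 : ∀ v u, K'.Adj v u → (c s(v, u) = α ∨ c s(v, u) = γ) → v ∈ S → u ∈ S := by
    intro v u hvu hc hv
    rw [hmS] at hv ⊢
    rcases hv with rfl | rfl | rfl
    · rcases hc with hc | hc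
      · right; left
        exact hinj v u z hvu hxz (by rw [hc, hcxz])
      · exact absurd ⟨u, hvu, hc⟩ hγx
    · rcases hc with hc | hc
      · left
        exact hinj v u x hvu hxz.symm (by rw [hc, Sym2.eq_swap, hcxz])
      · right; right
        exact hinj v u w hvu hzw (by rw [hc, hczw])
    · rcases hc with hc | hc
      · exact absurd ⟨u, hvu, hc⟩ hαw
      · right; left
        exact hinj v u z hvu hzw.symm (by rw [hc, Sym2.eq_swap, hczw])
  have hcl : Kcl K' c α γ S := by
    intro v u hvu hc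
    refine ⟨hcl1 v u hvu hc, hcl1 u v hvu.symm ?_⟩
    rw [Sym2.eq_swap]
    exact hc
  obtain ⟨k1, k2, k3, k4⟩ := hKSW V K' D c α γ S hb.pec hb.lt hγD hcl
  set c' := ksw c α γ S with hc'
  have hxS : x ∈ S := (hmS x).mpr (Or.inl rfl)
  have hzS : z ∈ S := (hmS z).mpr (Or.inr (Or.inl rfl))
  have hwS : w ∈ S := (hmS w).mpr (Or.inr (Or.inr rfl))
  -- presence of α in c'
  have hα' : ∀ v ∈ X, (has K' c' v α ↔ (v = w ∨ (v ≠ x ∧ has K' c v α))) := by
    intro v hv
    by_cases hvx : v = x
    · subst hvx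
      rw [(k2 v hxS).1]
      exact ⟨fun h' => absurd h' hγx, fun h' => h'.elim (fun e => absurd e hxw)
        fun h'' => absurd rfl h''.1⟩
    · by_cases hvw : v = w
      · subst hvw
        rw [(k2 v hwS).1]
        exact ⟨fun _ => Or.inl rfl, fun _ => hγw⟩
      · have hvS : v ∉ S := by
          rw [hmS]
          rintro (e | e | e)
          · exact hvx e
          · exact hzX (e ▸ hv)
          · exact hvw e
        rw [k3 v hvS α]
        exact ⟨fun h' => Or.inr ⟨hvx, h'⟩, fun h' => h'.elim (fun e => absurd e hvw)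
          fun h'' => h''.2⟩
  have hγ' : ∀ v ∈ X, (has K' c' v γ ↔ (v = x ∨ (v ≠ w ∧ has K' c v γ))) := by
    intro v hv
    by_cases hvw : v = w
    · subst hvw
      rw [(k2 v hwS).2]
      exact ⟨fun h' => absurd h' hαw, fun h' => h'.elim (fun e => absurd e (Ne.symm hxw))
        fun h'' => absurd rfl h''.1⟩
    · by_cases hvx : v = x
      · subst hvx
        rw [(k2 v hxS).2]
        exact ⟨fun _ => Or.inl rfl, fun _ => hαx⟩
      · have hvS : v ∉ S := by
          rw [hmS]
          rintro (e | e | e)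
          · exact hvx e
          · exact hzX (e ▸ hv)
          · exact hvw e
        rw [k3 v hvS γ]
        exact ⟨fun h' => Or.inr ⟨hvw, h'⟩, fun h' => h'.elim (fun e => absurd e hvx)
          fun h'' => h''.2⟩
  have hnα : nX K' c' X α = nX K' c X α := by
    unfold nX
    have e1 : X.filter (fun v => has K' c' v α) =
        insert w ((X.filter fun v => has K' c v α).erase x) := by
      ext v
      simp only [Finset.mem_filter, Finset.mem_insert, Finset.mem_erase]
      constructor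
      · rintro ⟨hv, h'⟩
        rcases (hα' v hv).mp h' with e | e
        · exact Or.inl e
        · exact Or.inr ⟨e.1, hv, e.2⟩
      · rintro (e | ⟨e1, hv, e2⟩)
        · subst e
          exact ⟨hw, (hα' v hw).mpr (Or.inl rfl)⟩
        · exact ⟨hv, (hα' v hv).mpr (Or.inr ⟨e1, e2⟩)⟩
    have hwn : w ∉ (X.filter fun v => has K' c v α).erase x := by
      simp only [Finset.mem_erase, Finset.mem_filter]
      rintro ⟨_, _, h'⟩
      exact hαw h'
    have hxm : x ∈ X.filter fun v => has K' c v α := Finset.mem_filter.mpr ⟨hxX, hαx⟩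
    rw [e1, Finset.card_insert_of_notMem hwn, Finset.card_erase_add_one hxm]
  have hnγ : nX K' c' X γ = nX K' c X γ := by
    unfold nX
    have e1 : X.filter (fun v => has K' c' v γ) =
        insert x ((X.filter fun v => has K' c v γ).erase w) := by
      ext v
      simp only [Finset.mem_filter, Finset.mem_insert, Finset.mem_erase]
      constructor
      · rintro ⟨hv, h'⟩
        rcases (hγ' v hv).mp h' with e | e
        · exact Or.inl e
        · exact Or.inr ⟨e.1, hv, e.2⟩
      · rintro (e | ⟨e1, hv, e2⟩)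
        · subst e
          exact ⟨hxX, (hγ' v hxX).mpr (Or.inl rfl)⟩
        · exact ⟨hv, (hγ' v hv).mpr (Or.inr ⟨e1, e2⟩)⟩
    have hxn : x ∉ (X.filter fun v => has K' c v γ).erase w := by
      simp only [Finset.mem_erase, Finset.mem_filter]
      rintro ⟨_, _, h'⟩
      exact hγx h'
    have hwm : w ∈ X.filter fun v => has K' c v γ := Finset.mem_filter.mpr ⟨hw, hγw⟩
    rw [e1, Finset.card_insert_of_notMem hxn, Finset.card_erase_add_one hwm]
  have hno : ∀ i, i ≠ α → i ≠ γ → nX K' c' X i = nX K' c X i := by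
    intro i h1 h2
    unfold nX
    congr 1
    ext v
    simp only [Finset.mem_filter]
    rw [k4 v i h1 h2]
  refine ⟨c', ⟨k1, hb.lt, ?_, ?_, ?_⟩, ?_, ?_⟩
  · have hx0S : x0 ∉ S := by
      rw [hmS]
      rintro (e | e | e)
      · exact hxx0 e.symm
      · exact hzx0 e.symm
      · exact hwx0 e.symm
    rw [k3 x0 hx0S α]
    exact hb.mis
  · intro i hi hia
    by_cases hig : i = γ
    · rw [hig, hnγ]
      exact hb.par γ hγD hγα
    · rw [hno i hia hig]
      exact hb.par i hi hia
  · rw [hnα]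
    exact hb.bad
  · -- yyc
    have hcc : ∀ v u, v ∉ X → u ∉ X → K'.Adj v u → (c' s(v, u) = α ↔ c s(v, u) = α) := by
      intro v u hv hu hvu
      have key : ∀ a b : V, a ∉ X → b ∉ X → K'.Adj a b → a ∈ S → c s(a, b) ≠ α ∧ c s(a, b) ≠ γ := by
        intro a b ha hb' hab haS
        have haz : a = z := by
          rcases (hmS a).mp haS with e | e | e
          · exact absurd (e ▸ hxX) ha
          · exact e
          · exact absurd (e ▸ hw) ha
        subst haz
        refine ⟨fun e => ?_, fun e => ?_⟩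
        · have := hinj a b x hab hxz.symm (by rw [e, Sym2.eq_swap, hcxz])
          exact hb' (this ▸ hxX)
        · have := hinj a b w hab hzw (by rw [e, hczw])
          exact hb' (this ▸ hw)
      rw [hc']
      unfold ksw
      split_ifs with hex
      · obtain ⟨a, ha, haS⟩ := hex
        rw [Sym2.mem_iff] at ha
        have hne : c s(v, u) ≠ α ∧ c s(v, u) ≠ γ := by
          rcases ha with e | e
          · subst e
            exact key a u hv hu hvu haS
          · subst e
            have := key a v hu hv hvu.symm haS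
            rwa [Sym2.eq_swap] at this
        rw [Equiv.swap_apply_of_ne_of_ne hne.1 hne.2]
      · exact Iff.rfl
    unfold yyc
    congr 1
    ext v
    simp only [Finset.mem_filter, Finset.mem_univ, true_and]
    constructor
    · rintro ⟨hv, u, hu, hvu, e⟩
      exact ⟨hv, u, hu, hvu, (hcc v u hv hu hvu).mp e⟩
    · rintro ⟨hv, u, hu, hvu, e⟩
      exact ⟨hv, u, hu, hvu, (hcc v u hv hu hvu).mpr e⟩
  · -- heavy vertices
    refine Finset.card_lt_card ?_
    rw [Finset.ssubset_iff_of_subset]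
    · refine ⟨x, ?_, ?_⟩
      · unfold hvc
        exact Finset.mem_filter.mpr ⟨hxX, hαx, hhx⟩
      · unfold hvc
        rw [Finset.mem_filter]
        rintro ⟨_, h', _⟩
        rcases (hα' x hxX).mp h' with e | e
        · exact hxw e
        · exact e.1 rfl
    · intro v hv
      unfold hvc at hv ⊢
      rw [Finset.mem_filter] at hv ⊢
      obtain ⟨hvX, h', hh⟩ := hv
      rcases (hα' v hvX).mp h' with e | e
      · exact absurd (e ▸ hh) hlight
      · exact ⟨hvX, e.2, hh⟩

theorem BL4 (hKSW : KSW_stmt) (hSCN : SCN_stmt) (hBL2 : BL2_stmt) (hBL3 : BL3_stmt) : BL4_stmt := by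
  intro V _ K X D p x0 y0 r B c α h hg hb x z hx hxz hcxz hzy
  obtain ⟨hαG, hGc, hnX⟩ := hBL3 V K X D p x0 y0 r B c α h hg hb
  have hB : 1 ≤ B := h.B1
  have hr : 1000 * B ^ 2 ≤ r := h.rB
  have hx' := hx
  unfold hvc at hx'
  rw [Finset.mem_filter] at hx'
  obtain ⟨hxX, hαx, hhx⟩ := hx'
  have hzX : z ∉ X := fun hz => h.ind x hxX z hz ((SimpleGraph.deleteEdges_le _) hxz)
  -- the colours of Γ missing at x
  set Γ := Gam K X D x0 y0 c with hΓ
  set Γx := Γ.filter fun γ => ¬ has (Kd K x0 y0) c x γ with hΓx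
  have hcard : (Γ.card : ℝ) ≤ Γx.card + 11 / 10 * r := by
    have h1 : Γ.card ≤ Γx.card + dg K x := by
      have h2 : Γ ⊆ Γx ∪ ((Finset.range D).filter fun i => has (Kd K x0 y0) c x i) := by
        intro γ hγ
        rw [Finset.mem_union]
        by_cases hh : has (Kd K x0 y0) c x γ
        · right
          rw [Finset.mem_filter]
          rw [hΓ] at hγ
          unfold Gam at hγ
          exact ⟨(Finset.mem_filter.mp hγ).1, hh⟩
        · left
          exact Finset.mem_filter.mpr ⟨hγ, hh⟩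
      refine (Finset.card_le_card h2).trans ((Finset.card_union_le _ _).trans ?_)
      rw [hSCN V (Kd K x0 y0) D c hb.pec x]
      exact Nat.add_le_add_left (BL4_dg_le K x0 y0 x) _
    have h3 : (Γ.card : ℝ) ≤ Γx.card + dg K x := by exact_mod_cast h1
    linarith [h.degx x hxX]
  -- the neighbours
  have hex : ∀ γ ∈ Γx, ∃ w, (Kd K x0 y0).Adj z w ∧ c s(z, w) = γ ∧ w ∈ X := by
    intro γ hγ
    obtain ⟨hγΓ, hγx⟩ := Finset.mem_filter.mp hγ
    have hγα : γ ≠ α := fun e => hαG (e ▸ hγΓ)
    rw [hΓ] at hγΓ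
    unfold Gam at hγΓ
    obtain ⟨h1, h2, h3, h4⟩ := Finset.mem_filter.mp hγΓ
    obtain ⟨w, hw1, hw2⟩ := hBL2 V K X D p x0 y0 r B c α h hg hb γ (Finset.mem_range.mp h1) hγα h2 h3
      x hxX z hxz hcxz hzy hγx
    refine ⟨w, hw1, hw2, ?_⟩
    by_contra hwX
    exact h4 z w hw1 hzX hwX hw2
  have : Nonempty V := ⟨x⟩
  choose! f hf1 hf2 hf3 using hex
  set Bad : Finset V := (X.filter fun v => r / (40 * B) < dg K v) ∪
    (X.filter fun v => has (Kd K x0 y0) c v α) with hBad
  have hBc : (Bad.card : ℝ) ≤ 42 * B ^ 2 := by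
    have h1 : (Bad.card : ℝ) ≤ (X.filter fun v => r / (40 * B) < dg K v).card +
        (X.filter fun v => has (Kd K x0 y0) c v α).card := by
      exact_mod_cast Finset.card_union_le _ _
    have h2 := BL4_heavy h
    have h3 : ((X.filter fun v => has (Kd K x0 y0) c v α).card : ℝ) ≤ 2 * B := hnX
    nlinarith
  have hlt : Bad.card < Γx.card := by
    have : (Bad.card : ℝ) < Γx.card := by nlinarith
    exact_mod_cast this
  have hinj : Set.InjOn f (Γx : Set ℕ) := by
    intro a ha b hb' e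
    rw [← hf2 a ha, ← hf2 b hb', e]
  have hne : ∃ γ ∈ Γx, f γ ∉ Bad := by
    by_contra hcon
    push Not at hcon
    have h1 : (Γx.image f) ⊆ Bad := by
      intro v hv
      obtain ⟨γ, hγ, rfl⟩ := Finset.mem_image.mp hv
      exact hcon γ hγ
    have h2 := Finset.card_le_card h1
    rw [Finset.card_image_of_injOn hinj] at h2
    omega
  obtain ⟨γ, hγ, hγB⟩ := hne
  obtain ⟨hγΓ, hγx⟩ := Finset.mem_filter.mp hγ
  have hγα : γ ≠ α := fun e => hαG (e ▸ hγΓ)
  rw [hΓ] at hγΓ
  unfold Gam at hγΓ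
  obtain ⟨h1, h2, h3, h4⟩ := Finset.mem_filter.mp hγΓ
  rw [hBad, Finset.mem_union, Finset.mem_filter, Finset.mem_filter] at hγB
  push Not at hγB
  refine BL4_exch hKSW h hb hx hxz hcxz (hf1 γ hγ) (hf2 γ hγ) (hf3 γ hγ) (Finset.mem_range.mp h1)
    hγα h2 hγx (hγB.2 (hf3 γ hγ)) (not_lt.mpr (hγB.1 (hf3 γ hγ)))

end

end Pool.Agent.OF
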