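import Pool.Agent.helper88.OF.Defs

/-! # Project OF, modules TA, TB, TC: general lemmas -/

namespace Pool.Agent.helper88.OF

open Finset Pool.Agent.helper76.LP

/-- multiplication by a unit on the points of order `D` -/
lemma TA_mul_emb {m D : ℕ} [NeZero m] [NeZero D] (hD : D ∣ m) (u : (ZMod m)ˣ) (z : (ZMod D)ˣ) :
    (u : ZMod m) * emb D m (z : ZMod D) =
      emb D m ((ZMod.unitsMap hD u * z : (ZMod D)ˣ) : ZMod D) := by
  rw [mul_emb hD, Units.val_mul]
  rfl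

lemma TA_unitsMap_neg {m D : ℕ} (hD : D ∣ m) (z : (ZMod m)ˣ) :
    ZMod.unitsMap hD (-z) = - ZMod.unitsMap hD z := by
  apply Units.ext
  simp [ZMod.unitsMap_def]

/-- the sum over the points of order `e` -/
lemma TA_sum_emb {m : ℕ} [NeZero m] (e : ℕ) [NeZero e] (he : e ∣ m) (F : ZMod m → ℤ) :
    ∑ x, (if addOrderOf x = e then F x else 0) = ∑ z : (ZMod e)ˣ, F (emb e m (z : ZMod e)) := by
  classical
  rw [← Finset.sum_filter]
  symm
  refine Finset.sum_bij (fun z _ => emb e m (z : ZMod e)) ?_ ?_ ?_ ?_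
  · intro z _
    rw [Finset.mem_filter]
    exact ⟨Finset.mem_univ _, addOrderOf_emb he z⟩
  · intro z _ w _ h
    exact Units.ext (emb_injective he h)
  · intro x hx
    rw [Finset.mem_filter] at hx
    obtain ⟨z, hz⟩ := exists_emb x hx.2
    exact ⟨z, Finset.mem_univ _, hz⟩
  · intro z _
    rfl

lemma TB_tateF_mul {m : ℕ} [NeZero m] (u : (ZMod m)ˣ) {F : ZMod m → ℤ} (hT : TateF F) :
    TateF (fun x => F ((u : ZMod m) * x)) := by
  intro t
  have h := hT (t * u⁻¹)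
  rw [← Equiv.sum_comp (Units.mulLeft u)
    (fun x => F x * saw m (((t * u⁻¹ : (ZMod m)ˣ) : ZMod m) * x))] at h
  rw [← h]
  refine Finset.sum_congr rfl fun x _ => ?_
  rw [Units.mulLeft_apply]
  have h1 : ((t * u⁻¹ : (ZMod m)ˣ) : ZMod m) * ((u : ZMod m) * x) = (t : ZMod m) * x := by
    rw [Units.val_mul, mul_assoc, Units.inv_mul_cancel_left]
  rw [h1]

lemma TB_tateF_sub {m : ℕ} [NeZero m] {F G : ZMod m → ℤ} (hF : TateF F) (hG : TateF G) :
    TateF (fun x => F x - G x) := by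
  intro t
  have h1 := hF t
  have h2 := hG t
  simp only [sub_mul, Finset.sum_sub_distrib, h1, h2, sub_zero]

lemma TB_mdv_smul {G ι : Type*} [CommGroup G] (Γ : ι → Subgroup G) (c : ℤ) (hc : c ≠ 0) :
    ∀ (L : List ι) (f : G → ℤ), MDv Γ L (fun x => c * f x) → MDv Γ L f
  | [], _, h => fun x => (mul_eq_zero.1 (h x)).resolve_left hc
  | i :: L, f, h => fun u hu => TB_mdv_smul Γ c hc L _ (by
      have h1 := h u hu
      have h2 : (fun x => c * (f (u * x) - f x)) = fun x => c * f (u * x) - c * f x := by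
        funext x; ring
      rw [h2]
      exact h1)

/-- the orbit function one level down -/
lemma TB_orb {D e p : ℕ} [NeZero D] [NeZero e] (he : e * p = D) (hp : 0 < p)
    (u x₀ z : (ZMod D)ˣ) :
    orb (Gam D p) u (z * x₀⁻¹) =
      (if ZMod.unitsMap (Dvd.intro p he) z = ZMod.unitsMap (Dvd.intro p he) x₀ then (1 : ℤ)
        else 0) -
      (if ZMod.unitsMap (Dvd.intro p he) u * ZMod.unitsMap (Dvd.intro p he) z =
        ZMod.unitsMap (Dvd.intro p he) x₀ then 1 else 0) -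
      (if - ZMod.unitsMap (Dvd.intro p he) z = ZMod.unitsMap (Dvd.intro p he) x₀ then 1 else 0) +
      (if - (ZMod.unitsMap (Dvd.intro p he) u * ZMod.unitsMap (Dvd.intro p he) z) =
        ZMod.unitsMap (Dvd.intro p he) x₀ then 1 else 0) := by
  have key : ∀ a : (ZMod D)ˣ, ind (Gam D p) (a * x₀⁻¹) =
      if ZMod.unitsMap (Dvd.intro p he) a = ZMod.unitsMap (Dvd.intro p he) x₀ then (1 : ℤ)
        else 0 := by
    intro a
    unfold ind
    have h1 : a * x₀⁻¹ ∈ Gam D p ↔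
        ZMod.unitsMap (Dvd.intro p he) a = ZMod.unitsMap (Dvd.intro p he) x₀ := by
      rw [GA_mem he hp, map_mul, map_inv, mul_inv_eq_one]
    by_cases h2 : a * x₀⁻¹ ∈ Gam D p
    · rw [if_pos h2, if_pos (h1.1 h2)]
    · rw [if_neg h2, if_neg fun h => h2 (h1.2 h)]
  unfold orb
  rw [← mul_assoc u z x₀⁻¹, ← neg_mul z x₀⁻¹, ← neg_mul (u * z) x₀⁻¹, key, key, key, key,
    TA_unitsMap_neg, TA_unitsMap_neg, map_mul]

/-- the unit `v` modulo `e` induced by `u` is `-1` modulo 3 -/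
lemma TB_mod3 {e : ℕ} [NeZero e] (h3 : 3 ∣ e) (h9 : ¬ 9 ∣ e) (v : (ZMod e)ˣ) (hv : v ∈ Gam e 3)
    (hv1 : v ≠ 1) : ZMod.unitsMap h3 v = -1 := by
  have hdec : ∀ a : (ZMod 3)ˣ, a = 1 ∨ a = -1 := by decide
  refine (hdec _).resolve_left fun h => hv1 ?_
  obtain ⟨k, hk⟩ := h3
  have hk0 : k ≠ 0 := by rintro rfl; exact NeZero.ne e (by omega)
  have : NeZero k := ⟨hk0⟩
  have hke : k * 3 = e := by omega
  rw [GA_mem hke (by norm_num)] at hv
  have hcop : Nat.Coprime 3 k := by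
    rw [Nat.Prime.coprime_iff_not_dvd Nat.prime_three]
    rintro ⟨l, hl⟩
    exact h9 ⟨l, by omega⟩
  have e1 : (((v : ZMod e).val : ℕ) : ZMod 3) = ((1 : ℕ) : ZMod 3) := by
    have h1 := congrArg Units.val h
    rw [Nat.cast_one, ← Units.val_one, ← h1]
    conv_rhs => rw [ZMod.unitsMap_def, Units.coe_map, ← ZMod.natCast_zmod_val (v : ZMod e)]
    simp
  have e2 : (((v : ZMod e).val : ℕ) : ZMod k) = ((1 : ℕ) : ZMod k) := by
    have h1 := congrArg Units.val hv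
    rw [Nat.cast_one, ← Units.val_one, ← h1]
    conv_rhs => rw [ZMod.unitsMap_def, Units.coe_map, ← ZMod.natCast_zmod_val (v : ZMod e)]
    simp
  rw [ZMod.natCast_eq_natCast_iff] at e1 e2
  have e3 : (v : ZMod e).val ≡ 1 [MOD 3 * k] :=
    (Nat.modEq_and_modEq_iff_modEq_mul hcop).1 ⟨e1, e2⟩
  rw [← hk] at e3
  apply Units.ext
  rw [Units.val_one, ← ZMod.natCast_zmod_val (v : ZMod e)]
  rw [← ZMod.natCast_eq_natCast_iff] at e3
  rw [e3, Nat.cast_one]

lemma TB_unitsMap_coprime {e r : ℕ} (hr : r ∣ e) (p : ℕ) (h : p.Coprime e) :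
    ZMod.unitsMap hr (ZMod.unitOfCoprime p h) = ZMod.unitOfCoprime p (h.coprime_dvd_right hr) := by
  apply Units.ext
  simp [ZMod.unitsMap_def]

lemma TB_unitsMap_comp {m D e : ℕ} (h1 : D ∣ m) (h2 : e ∣ D) (u : (ZMod m)ˣ) :
    ZMod.unitsMap h2 (ZMod.unitsMap h1 u) = ZMod.unitsMap (h2.trans h1) u := by
  have h3 := ZMod.unitsMap_comp h2 h1
  rw [← h3]; rfl

/-- the order is not changed by a unit -/
lemma TB_order {m : ℕ} [NeZero m] (u : (ZMod m)ˣ) (x : ZMod m) :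
    addOrderOf ((u : ZMod m) * x) = addOrderOf x := by
  have hm0 : 0 < m := Nat.pos_of_ne_zero (NeZero.ne m)
  have hd := addOrderOf_dvd' x
  have : NeZero (addOrderOf x) := ⟨(Nat.pos_of_dvd_of_pos hd hm0).ne'⟩
  obtain ⟨z, hz⟩ := exists_emb x rfl
  conv_lhs => rw [← hz, TA_mul_emb hd]
  exact addOrderOf_emb hd _

lemma TB_ind_mul {G : Type*} [Group G] (H : Subgroup G) (t g : G) (ht : t ∈ H) :
    ind H (t * g) = ind H g := by
  unfold ind
  have h : t * g ∈ H ↔ g ∈ H := H.mul_mem_cancel_left ht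
  by_cases h1 : g ∈ H
  · rw [if_pos h1, if_pos (h.2 h1)]
  · rw [if_neg h1, if_neg fun h2 => h1 (h.1 h2)]

lemma TB_orb_mul {D : ℕ} (H : Subgroup (ZMod D)ˣ) (u t g : (ZMod D)ˣ) (ht : t ∈ H) :
    orb H u (t * g) = orb H u g := by
  unfold orb
  rw [mul_left_comm u t g, ← mul_neg, ← mul_neg, TB_ind_mul H t _ ht, TB_ind_mul H t _ ht,
    TB_ind_mul H t _ ht, TB_ind_mul H t _ ht]

lemma TB_orb_neg {D : ℕ} (H : Subgroup (ZMod D)ˣ) (u g : (ZMod D)ˣ) :
    orb H u (-g) = - orb H u g := by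
  unfold orb
  rw [mul_neg, neg_neg, neg_neg]
  ring

lemma TB_orb_tw {D : ℕ} (H : Subgroup (ZMod D)ˣ) (u g : (ZMod D)ˣ) (hu : u * u = 1) :
    orb H u (u * g) = - orb H u g := by
  unfold orb
  rw [← mul_assoc, hu, one_mul]
  ring

/-- the levels `D = 5 e`, `e = 3 H` -/
lemma TB_levels {D p : ℕ} [NeZero D] (hp : p.Prime) (hD2 : Odd D) (h3 : 3 ∣ D) (h9 : ¬ 9 ∣ D)
    (h5 : 5 ∣ D) (h25 : ¬ 25 ∣ D) (h15 : D ≠ 15) (hpp : p = 3 ∨ p = 5) :
    ∃ e H : ℕ, e * p = D ∧ H * 15 = D ∧ H ∣ e ∧ 1 < H ∧ (∀ q ∈ H.primeFactors, 7 ≤ q) ∧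
      e ≠ 0 ∧ H ≠ 0 ∧ e = H * (15 / p) := by
  obtain ⟨H, hH⟩ : 15 ∣ D :=
    (show Nat.Coprime 3 5 by norm_num).mul_dvd_of_dvd_of_dvd h3 h5
  have hD0 : D ≠ 0 := NeZero.ne D
  have hH0 : H ≠ 0 := by rintro rfl; exact hD0 (by omega)
  have hq : ∀ q ∈ H.primeFactors, 7 ≤ q := by
    intro q hq
    have hqp := Nat.prime_of_mem_primeFactors hq
    have hqH := Nat.dvd_of_mem_primeFactors hq
    by_contra hlt
    have h2 := hqp.two_le
    obtain ⟨k, hk⟩ := hqH
    have hc : q = 2 ∨ q = 3 ∨ q = 4 ∨ q = 5 ∨ q = 6 := by omega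
    rcases hc with rfl | rfl | rfl | rfl | rfl
    · obtain ⟨l, hl⟩ := hD2
      omega
    · exact h9 ⟨5 * k, by omega⟩
    · norm_num at hqp
    · exact h25 ⟨3 * k, by omega⟩
    · norm_num at hqp
  rcases hpp with rfl | rfl
  · exact ⟨H * 5, H, by omega, by omega, ⟨5, rfl⟩, by omega, hq, by omega, hH0, rfl⟩
  · exact ⟨H * 3, H, by omega, by omega, ⟨3, rfl⟩, by omega, hq, by omega, hH0, rfl⟩

/-- `k` is not `1` or `-1` modulo `H` -/
lemma TB_ne {H : ℕ} (h1 : 1 < H) (hq : ∀ q ∈ H.primeFactors, 7 ≤ q) (p : ℕ) (hp : p.Coprime H)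
    (hpp : p = 3 ∨ p = 5) :
    ZMod.unitOfCoprime p hp ≠ 1 ∧ ZMod.unitOfCoprime p hp ≠ -1 := by
  obtain ⟨q, hqp, hqH⟩ := Nat.exists_prime_and_dvd (show H ≠ 1 by omega)
  have h7 := hq q (Nat.mem_primeFactors.2 ⟨hqp, hqH, by omega⟩)
  have hH7 : 7 ≤ H := h7.trans (Nat.le_of_dvd (by omega) hqH)
  have key : ∀ a : ℕ, 0 < a → a < 7 → ((a : ℕ) : ZMod H) ≠ 0 := by
    intro a h0 h7 h
    rw [ZMod.natCast_eq_zero_iff] at h
    have := Nat.le_of_dvd h0 h
    omega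
  constructor
  · intro h
    have h1 := congrArg Units.val h
    rw [ZMod.coe_unitOfCoprime, Units.val_one] at h1
    rcases hpp with rfl | rfl
    · exact key 2 (by norm_num) (by norm_num) (by push_cast at h1 ⊢; linear_combination h1)
    · exact key 4 (by norm_num) (by norm_num) (by push_cast at h1 ⊢; linear_combination h1)
  · intro h
    have h1 := congrArg Units.val h
    rw [ZMod.coe_unitOfCoprime, Units.val_neg, Units.val_one] at h1
    rcases hpp with rfl | rfl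
    · exact key 4 (by norm_num) (by norm_num) (by push_cast at h1 ⊢; linear_combination h1)
    · exact key 6 (by norm_num) (by norm_num) (by push_cast at h1 ⊢; linear_combination h1)

lemma TB_one_ne {r : ℕ} (h : 3 ≤ r) : (1 : (ZMod r)ˣ) ≠ -1 := by
  intro h1
  have h2 := congrArg Units.val h1
  rw [Units.val_neg, Units.val_one] at h2
  have h3 : ((2 : ℕ) : ZMod r) = 0 := by
    push_cast; linear_combination h2
  rw [ZMod.natCast_eq_zero_iff] at h3
  have := Nat.le_of_dvd (by norm_num) h3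
  omega

end Pool.Agent.helper88.OF
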